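import Mathlib

/-!
# FLAT at one symbol: definitions (note 3205)

`β : V × W → B` is a bilinear map of finite `𝔽₂`-spaces, `c ≠ 0` a symbol.
-/

set_option autoImplicit false

namespace Pool.Agent.T18

variable {V W B : Type} [AddCommGroup V] [Module (ZMod 2) V] [AddCommGroup W] [Module (ZMod 2) W]
  [AddCommGroup B] [Module (ZMod 2) B]

/-- the vectors killed by `K` -/
def VK (β : V →ₗ[ZMod 2] W →ₗ[ZMod 2] B) (K : Submodule (ZMod 2) W) : Submodule (ZMod 2) V where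
  carrier := {v | ∀ k ∈ K, β v k = 0}
  zero_mem' := by
    intro k _
    simp
  add_mem' := by
    intro a b ha hb k hk
    rw [map_add, LinearMap.add_apply, ha k hk, hb k hk, add_zero]
  smul_mem' := by
    intro r a ha k hk
    rw [map_smul, LinearMap.smul_apply, ha k hk, smul_zero]

theorem mem_VK {β : V →ₗ[ZMod 2] W →ₗ[ZMod 2] B} {K : Submodule (ZMod 2) W} {v : V} :
    v ∈ VK β K ↔ ∀ k ∈ K, β v k = 0 := Iff.rfl

/-- `W_v` -/
def Wv (β : V →ₗ[ZMod 2] W →ₗ[ZMod 2] B) (v : V) : Submodule (ZMod 2) W := LinearMap.ker (β v)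

theorem mem_Wv {β : V →ₗ[ZMod 2] W →ₗ[ZMod 2] B} {v : V} {w : W} : w ∈ Wv β v ↔ β v w = 0 :=
  LinearMap.mem_ker

/-- `c` is represented by `v` -/
def InS (β : V →ₗ[ZMod 2] W →ₗ[ZMod 2] B) (c : B) (v : V) : Prop := ∃ w, β v w = c

/-- `w` is a line -/
def InL (β : V →ₗ[ZMod 2] W →ₗ[ZMod 2] B) (c : B) (w : W) : Prop := ∃ v, β v w = c

/-- `FLAT` at the symbol `c` -/
structure Flat (β : V →ₗ[ZMod 2] W →ₗ[ZMod 2] B) (c : B) : Prop where
  w : ∀ (K : Submodule (ZMod 2) W) (w w1 : W), (∃ v ∈ VK β K, β v w = c) →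
    (∃ v ∈ VK β K, β v w1 = c) → ∃ v ∈ VK β K, β v w = c ∧ β v w1 = c
  v : ∀ u v v1 : V, (∃ w, β u w = 0 ∧ β v w = c) → (∃ w, β u w = 0 ∧ β v1 w = c) →
    ∃ w, β u w = 0 ∧ β v w = c ∧ β v1 w = c

/-- `y` is heaviest -/
def Heavy (β : V →ₗ[ZMod 2] W →ₗ[ZMod 2] B) (y : V) : Prop :=
  y ≠ 0 ∧ ∀ v, v ≠ 0 → Nat.card (Wv β v) ≤ Nat.card (Wv β y)

/-- `u ∼ v` -/
def Adj (β : V →ₗ[ZMod 2] W →ₗ[ZMod 2] B) (c : B) (u v : V) : Prop :=
  InS β c u ∧ InS β c v ∧ InS β c (u + v)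

/-- `N(u) = N_l` -/
structure At (β : V →ₗ[ZMod 2] W →ₗ[ZMod 2] B) (c : B) (u : V) (l : W) : Prop where
  ul : β u l = 0
  ne : InL β c l
  key : ∀ t w, β u w = 0 → β t w = c → β t l = c

/-- `b ∈ A(u)` (with `l = l_u`) -/
def InA (β : V →ₗ[ZMod 2] W →ₗ[ZMod 2] B) (c : B) (u : V) (l b : W) : Prop :=
  β u b = 0 ∧ ∃ t, β t l = c ∧ β t b = 0

/-- the polarity `l` -/
structure Pol (β : V →ₗ[ZMod 2] W →ₗ[ZMod 2] B) (c : B) (l : V → W) : Prop where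
  c0 : c ≠ 0
  flat : Flat β c
  kill : ∀ v, InS β c v → β v (l v) = 0
  line : ∀ v, InS β c v → InL β c (l v)
  uniq : ∀ v w, InS β c v → β v w = 0 → InL β c w → w = l v

/-- the restriction to `V_K × W/K` -/
noncomputable def res (β : V →ₗ[ZMod 2] W →ₗ[ZMod 2] B) (K : Submodule (ZMod 2) W) :
    VK β K →ₗ[ZMod 2] (W ⧸ K) →ₗ[ZMod 2] B where
  toFun v := K.liftQ (β v) (fun k hk => v.2 k hk)
  map_add' := by
    intro a b
    apply LinearMap.ext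
    intro w
    obtain ⟨w, rfl⟩ := K.mkQ_surjective w
    simp
  map_smul' := by
    intro r a
    apply LinearMap.ext
    intro w
    obtain ⟨w, rfl⟩ := K.mkQ_surjective w
    simp

theorem res_mk (β : V →ₗ[ZMod 2] W →ₗ[ZMod 2] B) (K : Submodule (ZMod 2) W) (v : VK β K) (w : W) :
    res β K v (K.mkQ w) = β v w := by
  simp [res]

end Pool.Agent.T18
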