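import Pool.Agent.T18.Defs

/-!
# The statements of note 3205 (one `def Stmt_..` per lemma, to be proved in separate files)
-/

set_option autoImplicit false

namespace Pool.Agent.T18

/-! ## Part A: Steps 1 - 5 (existence of the polarity) -/

/-- (1a) `N(u) = N_l` as soon as some neighbour `v` has `W_u ∩ W_v = 0`.
Proof: `Flat.v` with `u := 0` for `v, u+v` gives `l` with `u l = 0, v l = c`.  `key`: `Flat.v` at `u`
for `v, t` gives `w` with `u w = 0, v w = t w = c`; `w - l` is in `W_u ∩ W_v`. -/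
def Stmt_At : Prop := ∀ (V W B : Type) [AddCommGroup V] [Module (ZMod 2) V] [AddCommGroup W]
  [Module (ZMod 2) W] [AddCommGroup B] [Module (ZMod 2) B] [Finite V] [Finite W]
  (β : V →ₗ[ZMod 2] W →ₗ[ZMod 2] B) (c : B) (u v : V), Flat β c → InS β c v → InS β c (u + v) →
  (∀ w, β u w = 0 → β v w = 0 → w = 0) → ∃ l, At β c u l ∧ β v l = c

/-- (2b).  Proof: for `K ≤ W_v` and `b ∈ A(u)` there is `t ∈ V_K` with `t (l + b) = c` [induction on
`K`; step `K = K2 + <a>`, `a ∈ W_v`: `v ∈ V_K2`, `v (l + a) = c`, `Flat.w` in `V_K2` for `l + b`,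
`l + a`: `t`; `key` gives `t l = c`, so `t b = 0` and `t a = 0`].
Then for `K = W_v` and every subspace `C` of `A(u)` (`A(u)` is a subspace: link `l + b`, `l + b'`,
`K = 0`, use `key`) and `b ∈ A(u)` there is `t ∈ V_{K + C}` with `t (l + b) = c`: induction on `C`,
step `C + <b1>`: link `l + b` and `l + b + b1` in `V_{K + C}`.  Take `C = A(u)`, `b = 0`. -/
def Stmt_2b : Prop := ∀ (V W B : Type) [AddCommGroup V] [Module (ZMod 2) V] [AddCommGroup W]
  [Module (ZMod 2) W] [AddCommGroup B] [Module (ZMod 2) B] [Finite V] [Finite W]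
  (β : V →ₗ[ZMod 2] W →ₗ[ZMod 2] B) (c : B) (u v : V) (l : W), Flat β c → At β c u l →
  β v l = c → (∀ w, β u w = 0 → β v w = 0 → w = 0) →
  ∃ t, β t l = c ∧ (∀ a, β v a = 0 → β t a = 0) ∧ (∀ b, InA β c u l b → β t b = 0)

/-- `A(u)` is closed under addition and `E(u) = l + A(u)`. -/
def Stmt_A : Prop := ∀ (V W B : Type) [AddCommGroup V] [Module (ZMod 2) V] [AddCommGroup W]
  [Module (ZMod 2) W] [AddCommGroup B] [Module (ZMod 2) B] [Finite V] [Finite W]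
  (β : V →ₗ[ZMod 2] W →ₗ[ZMod 2] B) (c : B) (u : V) (l : W), Flat β c → At β c u l →
  (InA β c u l 0) ∧ (∀ b b', InA β c u l b → InA β c u l b' → InA β c u l (b + b')) ∧
  (∀ w, β u w = 0 → InL β c w → InA β c u l (l + w))

/-- If `b ∈ A(u)` then every line meets `V_b`.  Proof: `l + b` is a line; link it with `w`; `key`. -/
def Stmt_meet : Prop := ∀ (V W B : Type) [AddCommGroup V] [Module (ZMod 2) V] [AddCommGroup W]
  [Module (ZMod 2) W] [AddCommGroup B] [Module (ZMod 2) B] [Finite V] [Finite W]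
  (β : V →ₗ[ZMod 2] W →ₗ[ZMod 2] B) (c : B) (u : V) (l b w : W), Flat β c → At β c u l →
  InA β c u l b → InL β c w → ∃ t, β t w = c ∧ β t b = 0

/-- (HP).  If every line through the heaviest `y` meets `V_b` then `y b = 0`.
Proof: for `K ≤ W_y` and `w ∈ L(y)` there is `t ∈ V_K`, `t b = 0`, `t w = c` [induction on `K`, step
`K + <a>`: `w` and `w + a` are in `L(y)`; `Flat.w` for the space `K + <b>`].  `K = W_y`: `t ≠ 0` and
`W_t ≥ W_y + <b>`, so `W_t = W_y` as `y` is heaviest. -/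
def Stmt_HP : Prop := ∀ (V W B : Type) [AddCommGroup V] [Module (ZMod 2) V] [AddCommGroup W]
  [Module (ZMod 2) W] [AddCommGroup B] [Module (ZMod 2) B] [Finite V] [Finite W]
  (β : V →ₗ[ZMod 2] W →ₗ[ZMod 2] B) (c : B) (y : V) (b : W), Flat β c → c ≠ 0 → Heavy β y →
  InS β c y → (∀ w, β y w = c → ∃ t, β t w = c ∧ β t b = 0) → β y b = 0

/-- Steps 4 and 5: from `E(y) = {l_y}` for the heaviest `y` to the polarity.
Proof. (i) `u ∈ N(y)`, `u w = y w = 0` ==> `l_y + w ∈ E(y)`, so `w = 0`; `Stmt_At` (u, y): `l_u`;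
`Stmt_2b` (u, y) and heaviness: `A(u) = 0`; `Stmt_A`: `E(u) = {l_u}`; hence `W_u ∩ W_v = 0` for
every `v` with `v, u+v ∈ S`.
(ii) `v ∈ S`, `v ≠ y`: `w` with `v w = y w = c`; `u1` with `u1 w = u1 l_y = c`; `u = u1 + y ∈ N(y)`,
`u w = 0`, so `w = l_u` and `u + v ∈ S`: by (i) `W_u ∩ W_v = 0` and `Stmt_At` (v, u) gives `l_v`.
(iii) `A(v) = 0` for all `v ∈ S`: `b ∈ A(v)`: `Stmt_meet`, `Stmt_HP`: `y b = 0`; `Stmt_meet` for the
line `l_y`: `b ∈ A(y) = 0`.  So `E(v) = {l_v}`. -/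
def Stmt_Pol : Prop := ∀ (V W B : Type) [AddCommGroup V] [Module (ZMod 2) V] [AddCommGroup W]
  [Module (ZMod 2) W] [AddCommGroup B] [Module (ZMod 2) B] [Finite V] [Finite W]
  (β : V →ₗ[ZMod 2] W →ₗ[ZMod 2] B) (c : B) (y : V) (ly : W), Flat β c → c ≠ 0 → Heavy β y →
  InS β c y → At β c y ly → (∀ w, β y w = 0 → InL β c w → w = ly) → ∃ l : V → W, Pol β c l

/-! ## Part B: Step 6 (the polarity is bijective) -/

/-- Injectivity.  Proof: let `u, u' ∈ S`, `l u = l u'`, `d = u + u'`.  (1) for `z ∈ N(u)`: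
`z (l u) = c` so `z ∈ N(u')`, `u, u' ∈ N(z)`, `d (l z) = 0`; and `v + d ∈ S`, `l (v + d) = l v` for
`v ∈ N(u)`.  (2) any `z ∈ S` has a common neighbour with `u` (link `u, z` and `surj`), so
`d (l z) = 0` for all `z ∈ S`, i.e. (surj) `d w = 0` for every line `w`.  (3) the lines `L(y)`
generate `W_y + <w0>`; `d ≠ 0` contradicts heaviness. -/
def Stmt_inj : Prop := ∀ (V W B : Type) [AddCommGroup V] [Module (ZMod 2) V] [AddCommGroup W]
  [Module (ZMod 2) W] [AddCommGroup B] [Module (ZMod 2) B] [Finite V] [Finite W]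
  (β : V →ₗ[ZMod 2] W →ₗ[ZMod 2] B) (c : B) (y : V) (l : V → W), Pol β c l → Heavy β y →
  InS β c y → ∀ u v, InS β c u → InS β c v → l u = l v → u = v

/-- Surjectivity.  Proof: `w` a line, `v w = c`; `u1` with `u1 w = u1 (l v) = c`; `u = u1 + v`:
`u (l v) = c` so `u ∈ S`, and `u w = 0`, so `w = l u`. -/
def Stmt_surj : Prop := ∀ (V W B : Type) [AddCommGroup V] [Module (ZMod 2) V] [AddCommGroup W]
  [Module (ZMod 2) W] [AddCommGroup B] [Module (ZMod 2) B] [Finite V] [Finite W]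
  (β : V →ₗ[ZMod 2] W →ₗ[ZMod 2] B) (c : B) (l : V → W), Pol β c l →
  ∀ w, InL β c w → ∃ u, InS β c u ∧ l u = w

/-- a bijective polarity -/
structure PolB {V W B : Type} [AddCommGroup V] [Module (ZMod 2) V] [AddCommGroup W]
    [Module (ZMod 2) W] [AddCommGroup B] [Module (ZMod 2) B]
    (β : V →ₗ[ZMod 2] W →ₗ[ZMod 2] B) (c : B) (l : V → W) : Prop extends Pol β c l where
  inj : ∀ u v, InS β c u → InS β c v → l u = l v → u = v
  surj : ∀ w, InL β c w → ∃ u, InS β c u ∧ l u = w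

/-- Basic facts (Step 6, consequences; Step 7).  `Adj u v` means `u, v, u + v ∈ S`. -/
def Stmt_basic : Prop := ∀ (V W B : Type) [AddCommGroup V] [Module (ZMod 2) V] [AddCommGroup W]
  [Module (ZMod 2) W] [AddCommGroup B] [Module (ZMod 2) B] [Finite V] [Finite W]
  (β : V →ₗ[ZMod 2] W →ₗ[ZMod 2] B) (c : B) (l : V → W), PolB β c l →
  (∀ u v, InS β c u → InS β c v → (Adj β c u v ↔ β u (l v) = c)) ∧
  (∀ v, InS β c v → Nat.card {z // Adj β c v z} = Nat.card (Wv β v)) ∧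
  (∀ u v, InS β c u → InS β c v →
    Nat.card {z // Adj β c u z ∧ Adj β c v z} = Nat.card (Wv β u ⊓ Wv β v : Submodule _ _)) ∧
  (∀ u v, Adj β c u v → Wv β u ⊓ Wv β v = ⊥) ∧
  (∀ u v, Adj β c u v → l (u + v) = l u + l v) ∧
  (∀ u v, InS β c u → InS β c v → β u (l v) = 0 → u = v) ∧
  (∀ u v, InS β c u → InS β c v → ∃ z, Adj β c u z ∧ Adj β c v z) ∧
  (∀ v z w, InS β c v → InS β c z → (β v (l z) = c ↔ Adj β c v z) ∧
    (β v w = c → ∃ z, Adj β c v z ∧ l z = w))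

/-! ## Part C: Steps 8 and 9 (near-pencils) -/

/-- `K` is maximal among the `W_u ∩ W_v`, `u ≠ v ∈ S`, and nonzero -/
structure MaxK {V W B : Type} [AddCommGroup V] [Module (ZMod 2) V] [AddCommGroup W]
    [Module (ZMod 2) W] [AddCommGroup B] [Module (ZMod 2) B]
    (β : V →ₗ[ZMod 2] W →ₗ[ZMod 2] B) (c : B) (K : Submodule (ZMod 2) W) : Prop where
  ne : K ≠ ⊥
  ex : ∃ u v, InS β c u ∧ InS β c v ∧ u ≠ v ∧ Wv β u ⊓ Wv β v = K
  max : ∀ u v, InS β c u → InS β c v → u ≠ v → K ≤ Wv β u ⊓ Wv β v → Wv β u ⊓ Wv β v = K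

/-- `M_K = {v0} ∪ L`, `L = {u ∈ V_K : u lam = c}` -/
structure Near {V W B : Type} [AddCommGroup V] [Module (ZMod 2) V] [AddCommGroup W]
    [Module (ZMod 2) W] [AddCommGroup B] [Module (ZMod 2) B]
    (β : V →ₗ[ZMod 2] W →ₗ[ZMod 2] B) (c : B) (l : V → W) (K : Submodule (ZMod 2) W) (v0 : V)
    (lam : W) : Prop where
  v0S : InS β c v0
  v0K : v0 ∈ VK β K
  v0lam : β v0 lam ≠ c
  all : ∀ u, InS β c u → u ∈ VK β K → u = v0 ∨ β u lam = c
  two : ∃ u u1, u ∈ VK β K ∧ u1 ∈ VK β K ∧ β u lam = c ∧ β u1 lam = c ∧ u ≠ u1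
  wL : ∀ u, u ∈ VK β K → β u lam = c → Wv β u = K ⊔ Submodule.span (ZMod 2) {l u}
  card : Nat.card {u // u ∈ VK β K ∧ β u lam = c} * Nat.card K = Nat.card (Wv β v0)

/-- Step 8.  Proof: points `M = S ∩ V_K`, lines the classes `w + K` with `c ∈ V_K w`, the line is
`{v ∈ V_K : v w = c}`, an affine subspace.  Two points `u ≠ v` are on exactly one line
(`W_u ∩ W_v = K`), two lines meet (`Flat.w`), `p` is on `m(p) = |W_p/K|` lines, a power of 2, `≥ 2` as
`l p ∉ K` (else `l p` kills the other points, `Stmt_basic`).  Every line misses some point and has at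
least 2 points.  (P) if the line `g` misses `p` then `|g| = m(p)` (join `p` to the points of `g`).
(a) not all `m(p) ≥ 4`: else all lines have `≥ 4` points and sum `0`; summing over the `m(v)` lines
through `v`: `sum of M = v` for every `v ∈ M`, absurd.  (b) if `m(r) = 2` then at most one `p` has
`m(p) ≥ 4`: let `p ≠ q` have `m ≥ 4`; three lines through `p` miss `r` and have 2 points by (P); two of
them miss `q` and have `m(q) ≥ 4` points.  So there is `v0` with `m(u) = 2` for all `u ≠ v0` in `M`;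
such a `u` is on exactly one line avoiding `v0`, two such lines meet outside `v0`, so they all
coincide: this is `L`; `|L| = m(v0)` by (P); `W_u = K + <l u>` as `l u ∈ W_u` is not in `K`. -/
def Stmt_Near : Prop := ∀ (V W B : Type) [AddCommGroup V] [Module (ZMod 2) V] [AddCommGroup W]
  [Module (ZMod 2) W] [AddCommGroup B] [Module (ZMod 2) B] [Finite V] [Finite W]
  (β : V →ₗ[ZMod 2] W →ₗ[ZMod 2] B) (c : B) (l : V → W) (K : Submodule (ZMod 2) W), PolB β c l →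
  MaxK β c K → ∃ v0 lam, Near β c l K v0 lam

/-- If `|L| = 2` any of the three points can be taken as `v0`; so a heaviest `y ∈ M_K` is `v0`. -/
def Stmt_NearY : Prop := ∀ (V W B : Type) [AddCommGroup V] [Module (ZMod 2) V] [AddCommGroup W]
  [Module (ZMod 2) W] [AddCommGroup B] [Module (ZMod 2) B] [Finite V] [Finite W]
  (β : V →ₗ[ZMod 2] W →ₗ[ZMod 2] B) (c : B) (l : V → W) (K : Submodule (ZMod 2) W) (v0 y : V)
  (lam : W), PolB β c l → MaxK β c K → Near β c l K v0 lam → InS β c y → Heavy β y → y ∈ VK β K →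
  ∃ lam', Near β c l K y lam'

/-- `f ∈ F`: `f ∈ S` and `l f ∈ lam + K` -/
def InF {V W B : Type} [AddCommGroup V] [Module (ZMod 2) V] [AddCommGroup W]
    [Module (ZMod 2) W] [AddCommGroup B] [Module (ZMod 2) B]
    (β : V →ₗ[ZMod 2] W →ₗ[ZMod 2] B) (c : B) (l : V → W) (K : Submodule (ZMod 2) W) (lam : W)
    (f : V) : Prop := InS β c f ∧ l f + lam ∈ K

/-- Step 9, first part.  `u` runs through `L = {u ∈ V_K : u lam = c}`. -/
structure NF {V W B : Type} [AddCommGroup V] [Module (ZMod 2) V] [AddCommGroup W]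
    [Module (ZMod 2) W] [AddCommGroup B] [Module (ZMod 2) B]
    (β : V →ₗ[ZMod 2] W →ₗ[ZMod 2] B) (c : B) (l : V → W) (K : Submodule (ZMod 2) W) (v0 : V)
    (lam : W) : Prop where
  /-- every `u ∈ L` is adjacent to every `f ∈ F` -/
  adj : ∀ u f, u ∈ VK β K → β u lam = c → InF β c l K lam f → Adj β c u f
  /-- `F = N(u) ∩ N(u1)` for `u ≠ u1` in `L` -/
  inter : ∀ u u1 z, u ∈ VK β K → β u lam = c → u1 ∈ VK β K → β u1 lam = c → u ≠ u1 →
    Adj β c u z → Adj β c u1 z → InF β c l K lam z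
  /-- no `f ∈ F` is adjacent to `v0` -/
  nadj : ∀ f, InF β c l K lam f → ¬ Adj β c v0 f
  /-- `N(u) ≤ F ∪ N(v0)` for `u ∈ L` -/
  nu : ∀ u z, u ∈ VK β K → β u lam = c → Adj β c u z → InF β c l K lam z ∨ Adj β c v0 z
  /-- `N(v0) ≤ L + F` -/
  nv : ∀ z, Adj β c v0 z → ∃ u f, u ∈ VK β K ∧ β u lam = c ∧ InF β c l K lam f ∧ z = u + f ∧
    Adj β c u z
  /-- `L + F ≤ N(v0)` -/
  nv' : ∀ u f, u ∈ VK β K → β u lam = c → InF β c l K lam f → Adj β c v0 (u + f)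

def Stmt_NF : Prop := ∀ (V W B : Type) [AddCommGroup V] [Module (ZMod 2) V] [AddCommGroup W]
  [Module (ZMod 2) W] [AddCommGroup B] [Module (ZMod 2) B] [Finite V] [Finite W]
  (β : V →ₗ[ZMod 2] W →ₗ[ZMod 2] B) (c : B) (l : V → W) (K : Submodule (ZMod 2) W) (v0 : V)
  (lam : W), PolB β c l → MaxK β c K → Near β c l K v0 lam → NF β c l K v0 lam

/-- Step 9, end: `v0` is not heaviest.  Proof: `v0` is in the direction of `N(v0) = L + F`, so
`v0 = d + e`, `d` in the direction of `L` (`≤ V_K`), `e` in the direction of `F` (kills `l u` for all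
`u ∈ L`, as `F ⊆ N(u)`).  `e ≠ 0` (else `v0 + u ∈ S`, an edge in `M_K`).  `e` kills `K` and all
`l u`; `L(v0) = {l (u + f)} = {l u + l f}`, so `W_v0 ≤ K + <l u : u ∈ L> ≤ W_e`, and `l u ∈ W_e` is not
in `W_v0`. -/
def Stmt_notHeavy : Prop := ∀ (V W B : Type) [AddCommGroup V] [Module (ZMod 2) V] [AddCommGroup W]
  [Module (ZMod 2) W] [AddCommGroup B] [Module (ZMod 2) B] [Finite V] [Finite W]
  (β : V →ₗ[ZMod 2] W →ₗ[ZMod 2] B) (c : B) (l : V → W) (K : Submodule (ZMod 2) W) (v0 : V)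
  (lam : W), PolB β c l → MaxK β c K → Near β c l K v0 lam → NF β c l K v0 lam → ¬ Heavy β v0

/-! ## Part D: Steps 10 - 12 -/

/-- Step 10.  Proof: suppose not; `K` maximal in `{W_u ∩ W_y : u ∈ S, u ≠ y}`, `K ≠ 0`.  `K` is not
maximal in all `W_u ∩ W_v` (`Stmt_Near`, `Stmt_NearY`, `Stmt_NF`, `Stmt_notHeavy`): let `K1 > K` be
`MaxK`; `M_K1 = {v0} ∪ L`; `y ∉ V_K1`; `W_m ∩ W_y = K` for all `m ∈ M_K1`.
(i) `f ∈ F`, `f ~ y`: `L(y) ∩ L(u) = l f + K` for `u ∈ L`; `z ∈ N(y) ∩ N(v0)`, `z = u + f1`, `z ~ u`,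
so `l z ∈ l f + K`, so `v0 (l f) = c`: `f ~ v0`, no.
(ii) so `N(y) ∩ N(u) ⊆ N(y) ∩ N(v0)`, both have `|K|` elements, for all `u ∈ L`; so
`N(y) ∩ N(v0) ⊆ N(u) ∩ N(u1) = F`, no. -/
def Stmt_ten : Prop := ∀ (V W B : Type) [AddCommGroup V] [Module (ZMod 2) V] [AddCommGroup W]
  [Module (ZMod 2) W] [AddCommGroup B] [Module (ZMod 2) B] [Finite V] [Finite W]
  (β : V →ₗ[ZMod 2] W →ₗ[ZMod 2] B) (c : B) (l : V → W) (y : V), PolB β c l → Heavy β y →
  InS β c y → ∀ u, InS β c u → u ≠ y → Wv β u ⊓ Wv β y = ⊥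

/-- Step 11.  Proof: `s ∈ S`, `s ≠ y`, `s` not adjacent to `y`.  Double counting
`{(u, z) : u ~ s, z ~ y, u ~ z}`: `|W_s| = |N(s)| = sum over z ∈ N(y) of |N(z) ∩ N(s)| ≥ |N(y)| = |W_y|`,
so `|W_s| = |W_y|`, `s` is heaviest, and `|N(z) ∩ N(s)| = 1` for `z ∈ N(y)` (= `Stmt_ten` for `s`).
`N(y) ∩ N(s) = {z0}`.  `z ∈ N(y)`, `z ≠ z0`: `z ≠ s`, `z` not adjacent to `s`, so (first part with
`s` for `y`) `|W_z| = |W_y| ≥ 4` and `N(z)` (an affine space) sums to 0.  So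
`sum of S + y = sum over z ∈ N(y) of (sum of N(z)) = sum of N(z0) = sum of S + s`: `y = s`. -/
def Stmt_eleven : Prop := ∀ (V W B : Type) [AddCommGroup V] [Module (ZMod 2) V] [AddCommGroup W]
  [Module (ZMod 2) W] [AddCommGroup B] [Module (ZMod 2) B] [Finite V] [Finite W]
  (β : V →ₗ[ZMod 2] W →ₗ[ZMod 2] B) (c : B) (l : V → W) (y : V), PolB β c l → Heavy β y →
  InS β c y → 4 ≤ Nat.card (Wv β y) →
  (∀ s, Heavy β s → InS β c s → ∀ u, InS β c u → u ≠ s → Wv β u ⊓ Wv β s = ⊥) →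
  ∀ s, InS β c s → s = y ∨ Adj β c y s

/-- Step 12.  Proof: `N(x) = {y} ∪ (N(x) ∩ N(y)) = {y, x + y}`. -/
def Stmt_twelve : Prop := ∀ (V W B : Type) [AddCommGroup V] [Module (ZMod 2) V] [AddCommGroup W]
  [Module (ZMod 2) W] [AddCommGroup B] [Module (ZMod 2) B] [Finite V] [Finite W]
  (β : V →ₗ[ZMod 2] W →ₗ[ZMod 2] B) (c : B) (l : V → W) (x y : V), PolB β c l → Heavy β y →
  Adj β c x y → (∀ s, InS β c s → s = y ∨ Adj β c y s) → Nat.card (Wv β x) = 2

/-! ## Part E: assembly -/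

/-- `FLAT` passes to `V_K × W/K`. -/
def Stmt_res : Prop := ∀ (V W B : Type) [AddCommGroup V] [Module (ZMod 2) V] [AddCommGroup W]
  [Module (ZMod 2) W] [AddCommGroup B] [Module (ZMod 2) B] [Finite V] [Finite W]
  (β : V →ₗ[ZMod 2] W →ₗ[ZMod 2] B) (c : B) (K : Submodule (ZMod 2) W),
  (Flat β c → Flat (res β K) c) ∧
  (∀ v : VK β K, Nat.card (Wv (res β K) v) * Nat.card K = Nat.card (Wv β v)) ∧
  (∀ u v : VK β K, Nat.card (Wv (res β K) u ⊓ Wv (res β K) v : Submodule _ _) * Nat.card K =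
    Nat.card (Wv β u ⊓ Wv β v : Submodule _ _)) ∧
  (∀ v : VK β K, Heavy β v → Heavy (res β K) v) ∧
  (∀ v : VK β K, InS β c v ↔ InS (res β K) c v)

/-- THEOREM ZPc.  Proof by induction on `dim V + dim W`: Step 0 (`K = W_x ∩ W_y ≠ 0`: pass to
`res β K`).  So `W_x ∩ W_y = 0`; `|W_x| ≥ 2` (common line of `y, x + y`); suppose `|W_x| ≥ 4` (by
symmetry `x <-> x + y` it is enough to treat `x`).  `Stmt_At` at `(x,y)`, `(y,x)`.  Step 3: `A(y) = 0`:
otherwise `A = A(y)` is a nonzero subspace, `Stmt_2b` (u := y, v := x) gives `t` with `W_t ≥ W_x + A`,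
`t (l_y) = c`; `y, t ∈ V_A`, `W_t ∩ W_y = A` (`b ∈ W_t ∩ W_y` is in `A(y)`), so in `res β A` the pair
`(t, y)` has `|W_t/A| ≥ |W_x| ≥ 4` and `W_t ∩ W_y = 0`: against the induction hypothesis.  So
`E(y) = {l_y}` (`Stmt_A`), `Stmt_Pol`, `Stmt_inj`, `Stmt_surj`, `Stmt_ten`, `Stmt_eleven`
(`|W_y| ≥ |W_x| ≥ 4`), `Stmt_twelve`: `|W_x| = 2`. -/
def Stmt_ZPc : Prop := ∀ (V W B : Type) [AddCommGroup V] [Module (ZMod 2) V] [AddCommGroup W]
  [Module (ZMod 2) W] [AddCommGroup B] [Module (ZMod 2) B] [Finite V] [Finite W]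
  (β : V →ₗ[ZMod 2] W →ₗ[ZMod 2] B) (c : B) (x y : V), Flat β c → c ≠ 0 → Heavy β y →
  Adj β c x y → Nat.card (Wv β x) = 2 * Nat.card (Wv β x ⊓ Wv β y : Submodule _ _)

end Pool.Agent.T18
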